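import Pool.Agent.Y871.LW.Stm
import Pool.Agent.Y79.HS.Gav

/-!
# Project LW: average of collision factors over the values of a polynomial
-/

set_option autoImplicit false

open Finset

namespace Pool.Agent.Y759.LW

open Pool.Agent.Y843.HS Pool.Agent.Y79.HS Pool.Agent.Y871.LW

theorem card_class' {H : Finset ℕ} {N D : ℕ} (hD : 0 < D) (hH : H ⊆ Icc 1 N)
    (hc : ∀ a ∈ H, ∀ b ∈ H, (D : ℤ) ∣ (a : ℤ) - b) : (H.card : ℝ) ≤ 2 * N / D + 1 := by
  have h1 : (H.image (fun i : ℕ => (i : ℤ) - 1)).card = H.card := by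
    apply card_image_of_injective
    intro a b hab
    simp only at hab
    omega
  rw [← h1]
  apply card_class hD
  · intro a ha
    obtain ⟨i, hi, rfl⟩ := mem_image.1 ha
    have h2 := mem_Icc.1 (hH hi)
    rw [mem_Ioo]
    omega
  · intro a ha b hb
    obtain ⟨i, hi, rfl⟩ := mem_image.1 ha
    obtain ⟨j, hj, rfl⟩ := mem_image.1 hb
    have h2 := hc i hi j hj
    rwa [sub_sub_sub_cancel_right]

open Classical in
/-- the classes of the `i` for which `φ i - h` is a difference of two of the classes -/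
theorem card_Cl {r e s R N : ℕ} {Z : ℕ → Finset ℕ} {φ : ℕ → ℕ} (hZ : Sv r s R Z)
    (hφ : PC e s R N φ) (h : ℤ) {p : ℕ} (hp : p ∈ Pr s R) :
    (((Icc 1 N).filter (fun i => Df Z p ((φ i : ℤ) - h))).image (fun i => i % p)).card ≤
      e * r ^ 2 := by
  have hp0 : 0 < p := (mem_filter.1 hp).2.pos
  have hpz : (0 : ℤ) < p := by exact_mod_cast hp0
  have h1 : ((Icc 1 N).filter (fun i => Df Z p ((φ i : ℤ) - h))).image (fun i => i % p) ⊆
      (Z p ×ˢ Z p).biUnion (fun cc => ((Icc 1 N).filter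
        (fun i => φ i % p = ((h + ((cc.1 : ℤ) - cc.2)) % p).toNat)).image (fun i => i % p)) := by
    intro x hx
    obtain ⟨i, hi, rfl⟩ := mem_image.1 hx
    rw [mem_filter] at hi
    obtain ⟨hi1, c, hc1, c', hc2, hd⟩ := hi
    rw [mem_biUnion]
    refine ⟨(c, c'), mem_product.2 ⟨hc1, hc2⟩, mem_image.2 ⟨i, mem_filter.2 ⟨hi1, ?_⟩, rfl⟩⟩
    have hd' : (p : ℤ) ∣ (φ i : ℤ) - (h + ((c : ℤ) - c')) := by
      have e0 : (φ i : ℤ) - (h + ((c : ℤ) - c')) = (φ i : ℤ) - h - ((c : ℤ) - c') := by ring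
      rw [e0]
      exact hd
    have h2 : ((φ i : ℤ)) % p = (h + ((c : ℤ) - c')) % p :=
      (Int.modEq_iff_dvd.2 hd').symm
    have h3 : ((φ i % p : ℕ) : ℤ) = (h + ((c : ℤ) - c')) % p := by
      rw [← h2]
      push_cast
      rfl
    simp only
    rw [← h3, Int.toNat_natCast]
  refine (card_le_card h1).trans (card_biUnion_le.trans ?_)
  have h2 : ∀ cc ∈ Z p ×ˢ Z p, (((Icc 1 N).filter
        (fun i => φ i % p = ((h + ((cc.1 : ℤ) - cc.2)) % p).toNat)).image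
          (fun i => i % p)).card ≤ e := fun cc _ => hφ p hp _
  refine (Finset.sum_le_sum h2).trans ?_
  rw [sum_const, card_product, smul_eq_mul, mul_comm, sq]
  exact Nat.mul_le_mul_left _ (Nat.mul_le_mul (hZ p hp).1 (hZ p hp).1)

open Classical in
theorem count' {r e s R N : ℕ} {Z : ℕ → Finset ℕ} {φ : ℕ → ℕ} (hZ : Sv r s R Z)
    (hφ : PC e s R N φ) (h : ℤ) (T : Finset ℕ) : T ⊆ Pr s R →
    ∀ D : ℕ, 0 < D → (∀ p ∈ T, Nat.Coprime p D) →
    ∀ H : Finset ℕ, H ⊆ Icc 1 N → (∀ a ∈ H, ∀ b ∈ H, (D : ℤ) ∣ (a : ℤ) - b) →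
    ((H.filter (fun i => ∀ p ∈ T, Df Z p ((φ i : ℤ) - h))).card : ℝ) ≤
      ((e * r ^ 2 : ℕ) : ℝ) ^ T.card * (2 * N / (D * ((∏ p ∈ T, p : ℕ) : ℝ)) + 1) := by
  induction T using Finset.induction_on with
  | empty =>
    intro _ D hD _ H hH hc
    simp only [card_empty, pow_zero, one_mul, prod_empty, Nat.cast_one, mul_one]
    refine le_trans ?_ (card_class' hD hH hc)
    exact_mod_cast card_filter_le _ _
  | insert p T hp ih =>
    intro hT D hD hcop H hH hc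
    have hpP : p ∈ Pr s R := hT (mem_insert_self _ _)
    have hpp : p.Prime := (mem_filter.1 hpP).2
    have hp0 := hpp.pos
    set B : ℝ := ((e * r ^ 2 : ℕ) : ℝ) ^ T.card *
      (2 * N / (((D * p : ℕ) : ℝ) * ((∏ p ∈ T, p : ℕ) : ℝ)) + 1) with hB
    have hB0 : 0 ≤ B := by positivity
    set Cl := ((Icc 1 N).filter (fun i => Df Z p ((φ i : ℤ) - h))).image (fun i => i % p) with hCl
    have h1 : H.filter (fun i => ∀ q ∈ insert p T, Df Z q ((φ i : ℤ) - h)) ⊆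
        Cl.biUnion (fun c => (H.filter (fun i => i % p = c)).filter
          (fun i => ∀ q ∈ T, Df Z q ((φ i : ℤ) - h))) := by
      intro i hi
      rw [mem_filter] at hi
      rw [mem_biUnion]
      refine ⟨i % p, ?_, mem_filter.2 ⟨mem_filter.2 ⟨hi.1, rfl⟩,
        fun q hq => hi.2 q (mem_insert_of_mem hq)⟩⟩
      rw [hCl]
      exact mem_image.2 ⟨i, mem_filter.2 ⟨hH hi.1, hi.2 p (mem_insert_self _ _)⟩, rfl⟩
    have h2 : ∀ c ∈ Cl, ((((H.filter (fun i => i % p = c)).filter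
          (fun i => ∀ q ∈ T, Df Z q ((φ i : ℤ) - h))).card : ℕ) : ℝ) ≤ B := by
      intro c _
      apply ih (fun q hq => hT (mem_insert_of_mem hq)) (D * p) (Nat.mul_pos hD hp0)
      · intro q hq
        apply Nat.Coprime.mul_right (hcop q (mem_insert_of_mem hq))
        rw [Nat.coprime_primes (mem_filter.1 (hT (mem_insert_of_mem hq))).2 hpp]
        rintro rfl
        exact hp hq
      · exact (filter_subset _ _).trans hH
      · intro a ha b hb
        rw [mem_filter] at ha hb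
        have e1 := hc a ha.1 b hb.1
        have e2 : (p : ℤ) ∣ (a : ℤ) - b := by
          have h3 : b ≡ a [MOD p] := by
            unfold Nat.ModEq
            rw [ha.2, hb.2]
          exact (Nat.modEq_iff_dvd).1 h3
        have e3 : IsCoprime (D : ℤ) (p : ℤ) :=
          Nat.isCoprime_iff_coprime.2 (hcop p (mem_insert_self _ _)).symm
        push_cast
        exact e3.mul_dvd e1 e2
    have h3 : ((H.filter (fun i => ∀ q ∈ insert p T, Df Z q ((φ i : ℤ) - h))).card : ℝ) ≤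
        ∑ c ∈ Cl, ((((H.filter (fun i => i % p = c)).filter
          (fun i => ∀ q ∈ T, Df Z q ((φ i : ℤ) - h))).card : ℕ) : ℝ) := by
      have := (card_le_card h1).trans card_biUnion_le
      exact_mod_cast this
    refine h3.trans ((Finset.sum_le_sum h2).trans ?_)
    rw [sum_const, nsmul_eq_mul]
    have h4 : (Cl.card : ℝ) ≤ ((e * r ^ 2 : ℕ) : ℝ) := by
      exact_mod_cast card_Cl hZ hφ h hpP
    refine (mul_le_mul_of_nonneg_right h4 hB0).trans (le_of_eq ?_)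
    rw [hB, card_insert_of_notMem hp, prod_insert hp, pow_succ]
    push_cast
    rw [mul_assoc (D : ℝ)]
    ring

open Classical in
theorem sum_bound' {r e K N : ℕ} {Z : ℕ → Finset ℕ} {s R : ℕ} (hZ : Sv r s R Z) {φ : ℕ → ℕ}
    (hφ : PC e s R N φ) (h : ℤ) :
    ∑ i ∈ Icc 1 N, (Gd K Z s R ((φ i : ℤ) - h) - 1) ≤
      2 * N * (∏ p ∈ Pr s R, (1 + ((K * (e * r ^ 2) : ℕ) : ℝ) * (1 / (p : ℝ) ^ 2)) - 1) +
        ∏ p ∈ Pr s R, (1 + ((K * (e * r ^ 2) : ℕ) : ℝ) * (1 / (p : ℝ))) := by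
  simp only [Gd_eq]
  rw [Finset.sum_comm]
  have h1 : ∀ T ∈ (Pr s R).powerset.erase ∅,
      ∑ i ∈ Icc 1 N, (∏ p ∈ T, ((K : ℝ) / p)) *
        (if ∀ p ∈ T, Df Z p ((φ i : ℤ) - h) then 1 else 0) ≤
      2 * N * ∏ p ∈ T, (((K * (e * r ^ 2) : ℕ) : ℝ) * (1 / (p : ℝ) ^ 2)) +
        ∏ p ∈ T, (((K * (e * r ^ 2) : ℕ) : ℝ) * (1 / (p : ℝ))) := by
    intro T hT
    have hT1 : T ⊆ Pr s R := mem_powerset.1 (mem_of_mem_erase hT)
    rw [← Finset.mul_sum, ← Finset.sum_filter, sum_const, nsmul_eq_mul, mul_one]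
    have h2 := count' hZ hφ h T hT1 1 one_pos (fun p _ => Nat.coprime_one_right p)
      (Icc 1 N) (Finset.Subset.refl _) (fun a _ b _ => by simp)
    have h3 : 0 ≤ ∏ p ∈ T, ((K : ℝ) / p) := Finset.prod_nonneg (fun p _ => by positivity)
    refine (mul_le_mul_of_nonneg_left h2 h3).trans (le_of_eq ?_)
    have e1 : ((e * r ^ 2 : ℕ) : ℝ) ^ T.card = ∏ p ∈ T, ((e * r ^ 2 : ℕ) : ℝ) := by
      rw [prod_const]
    have e2 : ∏ p ∈ T, (((K * (e * r ^ 2) : ℕ) : ℝ) * (1 / (p : ℝ) ^ 2)) =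
        (∏ p ∈ T, ((K : ℝ) / p)) * (∏ p ∈ T, ((e * r ^ 2 : ℕ) : ℝ)) *
          (∏ p ∈ T, (1 / (p : ℝ))) := by
      rw [← Finset.prod_mul_distrib, ← Finset.prod_mul_distrib]
      apply Finset.prod_congr rfl
      intro p _
      push_cast
      ring
    have e3 : ∏ p ∈ T, (((K * (e * r ^ 2) : ℕ) : ℝ) * (1 / (p : ℝ))) =
        (∏ p ∈ T, ((K : ℝ) / p)) * (∏ p ∈ T, ((e * r ^ 2 : ℕ) : ℝ)) := by
      rw [← Finset.prod_mul_distrib]
      apply Finset.prod_congr rfl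
      intro p _
      push_cast
      ring
    have e4 : ∏ p ∈ T, (1 / (p : ℝ)) = 1 / ((∏ p ∈ T, p : ℕ) : ℝ) := by
      rw [Finset.prod_div_distrib, prod_const_one]
      push_cast
      rfl
    rw [e2, e3, e4, e1, Nat.cast_one, one_mul]
    ring
  refine (Finset.sum_le_sum h1).trans ?_
  rw [Finset.sum_add_distrib, ← Finset.mul_sum]
  have h2 : ∑ T ∈ (Pr s R).powerset.erase ∅,
      ∏ p ∈ T, (((K * (e * r ^ 2) : ℕ) : ℝ) * (1 / (p : ℝ) ^ 2)) =
      ∏ p ∈ Pr s R, (1 + ((K * (e * r ^ 2) : ℕ) : ℝ) * (1 / (p : ℝ) ^ 2)) - 1 := by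
    rw [Finset.prod_one_add, ← Finset.add_sum_erase _ _ (empty_mem_powerset (Pr s R)), prod_empty]
    ring
  have h3 : ∑ T ∈ (Pr s R).powerset.erase ∅,
      ∏ p ∈ T, (((K * (e * r ^ 2) : ℕ) : ℝ) * (1 / (p : ℝ))) ≤
      ∏ p ∈ Pr s R, (1 + ((K * (e * r ^ 2) : ℕ) : ℝ) * (1 / (p : ℝ))) := by
    rw [Finset.prod_one_add, ← Finset.add_sum_erase _ _ (empty_mem_powerset (Pr s R)), prod_empty]
    linarith
  rw [h2]
  linarith

/-- the average of the collision factors over the values of `φ` -/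
theorem t_GAVP : S_GAVP := by
  classical
  intro r e K ε hε
  obtain ⟨C, hC⟩ := Pool.Agent.Helper256.KM.mertens_inv
  have hC0 : 0 ≤ C := (abs_nonneg _).trans (hC 3 le_rfl)
  set k : ℕ := K * (e * r ^ 2) with hk
  obtain ⟨s₁, hs₁⟩ := exists_nat_ge (8 * (k : ℝ) / ε)
  set E : ℝ := Real.exp (k * C) with hE
  have hE0 : 0 < E := Real.exp_pos _
  obtain ⟨X₁, hX₁⟩ := exists_nat_ge (Real.exp (2 * E / ε))
  refine ⟨max s₁ (2 * k + 1), k + 1, max X₁ 3, ?_⟩
  intro s R X N hs hX hRX hN Z hZ φ hφ h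
  have hs1 : s₁ ≤ s := (le_max_left _ _).trans hs
  have hs2 : 2 * k + 1 ≤ s := (le_max_right _ _).trans hs
  have hX1 : X₁ ≤ X := (le_max_left _ _).trans hX
  have hX3 : 3 ≤ X := (le_max_right _ _).trans hX
  have hs0 : (0 : ℝ) < s := by exact_mod_cast (by omega : 0 < s)
  have hXr : (0 : ℝ) < X := by exact_mod_cast (by omega : 0 < X)
  have hlX : 0 < Real.log X := Real.log_pos (by exact_mod_cast (by omega : 1 < X))
  have hlX2 : 2 * E / ε ≤ Real.log X := by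
    rw [Real.le_log_iff_exp_le hXr]
    exact hX₁.trans (by exact_mod_cast hX1)
  have hNr : (0 : ℝ) < N := lt_of_lt_of_le (by positivity) hN
  have hk0 : (0 : ℝ) ≤ k := Nat.cast_nonneg _
  -- first part
  have h1 : ∏ p ∈ Pr s R, (1 + (k : ℝ) * (1 / (p : ℝ) ^ 2)) - 1 ≤ ε / 4 := by
    have h2 := prod_le_exp (Pr s R) (fun p => (k : ℝ) * (1 / (p : ℝ) ^ 2))
      (fun p _ => by positivity)
    rw [← Finset.mul_sum] at h2
    have h3 := sum_sq_le (s := s) (z := R) (by omega)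
    have h4 : (k : ℝ) * ∑ p ∈ Pr s R, 1 / (p : ℝ) ^ 2 ≤ k * (1 / s) :=
      mul_le_mul_of_nonneg_left h3 hk0
    have h5 := Real.exp_le_exp.2 h4
    have h6 : (k : ℝ) * (1 / s) ≤ 1 / 2 := by
      rw [mul_one_div, div_le_div_iff₀ hs0 (by norm_num)]
      have : ((2 * k : ℕ) : ℝ) ≤ s := by exact_mod_cast (by omega : 2 * k ≤ s)
      push_cast at this
      linarith
    have h7 := exp_sub_one_le (by positivity : (0 : ℝ) ≤ (k : ℝ) * (1 / s)) h6
    have h8 : 2 * ((k : ℝ) * (1 / s)) ≤ ε / 4 := by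
      rw [mul_one_div, mul_div_assoc', div_le_div_iff₀ hs0 (by norm_num)]
      rw [div_le_iff₀ hε] at hs₁
      have h9 : (s₁ : ℝ) * ε ≤ s * ε :=
        mul_le_mul_of_nonneg_right (by exact_mod_cast hs1) hε.le
      linarith
    linarith
  -- second part
  have h2 : ∏ p ∈ Pr s R, (1 + (k : ℝ) * (1 / (p : ℝ))) ≤ E * Real.log X ^ k := by
    have h3 := prod_le_exp (Pr s R) (fun p => (k : ℝ) * (1 / (p : ℝ))) (fun p _ => by positivity)
    rw [← Finset.mul_sum] at h3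
    have h4 : ∑ p ∈ Pr s R, 1 / (p : ℝ) ≤ Real.log (Real.log X) + C := by
      have h5 := (abs_le.1 (hC X hX3)).2
      have h6 : ∑ p ∈ Pr s R, 1 / (p : ℝ) ≤ ∑ p ∈ (Icc 1 X).filter Nat.Prime, (1 : ℝ) / p := by
        apply Finset.sum_le_sum_of_subset_of_nonneg
        · intro p hp
          unfold Pr at hp
          rw [mem_filter, mem_Ioc] at hp
          rw [mem_filter, mem_Icc]
          exact ⟨⟨hp.2.one_lt.le, hp.1.2.trans hRX⟩, hp.2⟩
        · intro p _ _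
          positivity
      linarith
    have h5 : (k : ℝ) * ∑ p ∈ Pr s R, 1 / (p : ℝ) ≤ k * C + k * Real.log (Real.log X) := by
      have := mul_le_mul_of_nonneg_left h4 hk0
      linarith
    refine h3.trans ((Real.exp_le_exp.2 h5).trans (le_of_eq ?_))
    have e1 : Real.exp (k * Real.log (Real.log X)) = Real.log X ^ k := by
      rw [Real.exp_nat_mul, Real.exp_log hlX]
    rw [Real.exp_add, e1]
  have h3 := sum_bound' (K := K) hZ hφ h
  rw [← hk] at h3
  rw [div_le_iff₀ hNr]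
  have h4 : E * Real.log X ^ k ≤ ε / 2 * N := by
    have h5 : 2 * E / ε * Real.log X ^ k ≤ N := by
      refine le_trans ?_ hN
      rw [pow_succ, mul_comm]
      exact mul_le_mul_of_nonneg_left hlX2 (by positivity)
    have h6 : 2 * E / ε * Real.log X ^ k = 2 * (E * Real.log X ^ k) / ε := by ring
    rw [h6, div_le_iff₀ hε] at h5
    linarith
  have h5 : 2 * (N : ℝ) * (∏ p ∈ Pr s R, (1 + (k : ℝ) * (1 / (p : ℝ) ^ 2)) - 1) ≤
      2 * N * (ε / 4) := mul_le_mul_of_nonneg_left h1 (by positivity)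
  linarith

end Pool.Agent.Y759.LW
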